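import Pool.Agent.helper69.SLH.Rank

set_option autoImplicit false

/-!
# Definitions for the statement (helper69)
-/

namespace Pool.Agent.helper69.SLH

open Module IntermediateField Polynomial
open Pool.Agent.helper79.SL Pool.Agent.helper69.SLG

/-- the degree of `L (α 1, …, α n)` over `L` -/
noncomputable def degOver (L : IntermediateField ℚ ℂ) {n : ℕ} (α : Fin n → ℂ) : ℕ :=
  finrank L (adjoin L (Set.range α))

/-- the degree of `ℚ (α 1, …, α n)` over `ℚ` -/
noncomputable def degQ {n : ℕ} (α : Fin n → ℂ) : ℕ :=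
  finrank ℚ (adjoin ℚ (Set.range α))

/-- `α 1, …, α n` are multiplicatively independent -/
def MulIndep {n : ℕ} (α : Fin n → ℂ) : Prop :=
  ∀ w : Fin n → ℤ, ∏ i, α i ^ w i = 1 → w = 0

/-- any `r + 1` conjugates over `L` of the numbers `α i` are multiplicatively dependent -/
def ConjRankLE (L : IntermediateField ℚ ℂ) (r : ℕ) {n : ℕ} (α : Fin n → ℂ) : Prop :=
  ∀ β : Fin (r + 1) → ℂ, (∀ j, ∃ i, aeval (β j) (minpoly L (α i)) = 0) →
    ∃ w : Fin (r + 1) → ℤ, w ≠ 0 ∧ ∏ j, β j ^ w j = 1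

end Pool.Agent.helper69.SLH
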