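import Pool.Agent.helper69.SLG.Cong

set_option autoImplicit false

/-!
# Amplification of congruences by powers of `p` (helper69)
-/

namespace Pool.Agent.helper69.SLH

open Finset Polynomial Pool.Agent.helper79.SL Pool.Agent.helper69.SLR Pool.Agent.helper69.SLG

section

variable {O : Type*} [CommRing O]

lemma pow_step (p : ℕ) (hp : p.Prime) (A C : Ideal O) {u v : O} (hv : v ∈ C)
    (h : u - v ∈ A * C) :
    u ^ p - v ^ p ∈ (Ideal.span {(p : O)} * A ⊔ A ^ p) * C ^ p := by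
  set w := u - v with hw
  have hu : u = w + v := by rw [hw]; ring
  obtain ⟨q, hq⟩ : ∃ q, p = q + 1 := ⟨p - 1, by have := hp.pos; omega⟩
  have hrg : range (p + 1) = range (q + 1 + 1) := by rw [hq]
  rw [hu, add_pow, hrg, Finset.sum_range_succ, Finset.sum_range_succ']
  have e : ∑ k ∈ range q, w ^ (k + 1) * v ^ (p - (k + 1)) * ((p.choose (k + 1) : ℕ) : O) +
      w ^ 0 * v ^ (p - 0) * ((p.choose 0 : ℕ) : O) +
      w ^ (q + 1) * v ^ (p - (q + 1)) * ((p.choose (q + 1) : ℕ) : O) - v ^ p =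
      ∑ k ∈ range q, w ^ (k + 1) * v ^ (p - (k + 1)) * ((p.choose (k + 1) : ℕ) : O) + w ^ p := by
    rw [← hq]
    simp only [pow_zero, one_mul, Nat.sub_zero, Nat.choose_zero_right, Nat.cast_one, mul_one,
      Nat.sub_self, Nat.choose_self]
    ring
  rw [e, Ideal.sup_mul]
  refine add_mem (sum_mem fun k hk => ?_) (Ideal.mem_sup_right ?_)
  · apply Ideal.mem_sup_left
    rw [Finset.mem_range] at hk
    obtain ⟨c, hc⟩ := hp.dvd_choose_self (k := k + 1) (by omega) (by omega)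
    have h1 : w ^ (k + 1) * v ^ (p - (k + 1)) ∈ A * C ^ p := by
      have h2 : w ^ (k + 1) ∈ A * C ^ (k + 1) := by
        have h3 := Ideal.pow_mem_pow h (k + 1)
        rw [mul_pow] at h3
        exact Ideal.mul_mono_left (Ideal.pow_le_self (by omega)) h3
      have h3 : v ^ (p - (k + 1)) ∈ C ^ (p - (k + 1)) := Ideal.pow_mem_pow hv _
      have h4 : A * C ^ p = A * C ^ (k + 1) * C ^ (p - (k + 1)) := by
        rw [mul_assoc, ← pow_add]
        congr 2
        omega
      rw [h4]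
      exact Ideal.mul_mem_mul h2 h3
    have h3 : w ^ (k + 1) * v ^ (p - (k + 1)) * ((p.choose (k + 1) : ℕ) : O) =
        (p : O) * (w ^ (k + 1) * v ^ (p - (k + 1)) * c) := by
      rw [hc]
      push_cast
      ring
    rw [h3, mul_assoc (Ideal.span {(p : O)})]
    exact Ideal.mul_mem_mul (Ideal.mem_span_singleton_self _) (Ideal.mul_mem_right _ _ h1)
  · rw [← mul_pow]
    exact Ideal.pow_mem_pow h p

lemma sup_sq_le (X Y : Ideal O) (p : ℕ) (hp : 2 ≤ p) : (X ⊔ Y) ^ p ≤ X ^ 2 ⊔ Y := by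
  refine (Ideal.pow_le_pow_right hp).trans ?_
  rw [pow_two, Ideal.sup_mul, Ideal.mul_sup, ← pow_two]
  refine sup_le (sup_le le_sup_left ?_) ?_
  · exact le_sup_of_le_right Ideal.mul_le_right
  · exact le_sup_of_le_right Ideal.mul_le_left

lemma amp (p t k : ℕ) (hp : p.Prime) (A C : Ideal O) {u v : O} (hv : v ∈ C)
    (h : u - v ∈ A * C) :
    u ^ (p ^ (t + k)) - v ^ (p ^ (t + k)) ∈
      (Ideal.span {(p : O)} ^ (k + 1) ⊔ A ^ (p ^ t)) * C ^ (p ^ (t + k)) := by
  induction k with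
  | zero =>
    rw [add_zero, zero_add, pow_one, Ideal.sup_mul]
    have hw : u - v ∈ C := Ideal.mul_le_right h
    have h1 := add_pow_sub_mem p t hp C hw hv
    rw [sub_add_cancel] at h1
    have h2 : (u - v) ^ (p ^ t) ∈ A ^ (p ^ t) * C ^ (p ^ t) := by
      rw [← mul_pow]
      exact Ideal.pow_mem_pow h _
    have h3 := add_mem (Ideal.mem_sup_left (T := A ^ (p ^ t) * C ^ (p ^ t)) h1)
      (Ideal.mem_sup_right (S := Ideal.span {(p : O)} * C ^ (p ^ t)) h2)
    convert h3 using 1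
    ring
  | succ k ih =>
    have hv' : v ^ (p ^ (t + k)) ∈ C ^ (p ^ (t + k)) := Ideal.pow_mem_pow hv _
    have h1 := pow_step p hp _ _ hv' ih
    rw [← pow_mul, ← pow_mul, ← pow_mul, ← pow_succ] at h1
    refine Ideal.mul_mono_left ?_ h1
    refine sup_le ?_ ?_
    · rw [Ideal.mul_sup, ← pow_succ']
      exact sup_le le_sup_left (le_sup_of_le_right Ideal.mul_le_right)
    · refine (sup_sq_le _ _ p hp.two_le).trans (sup_le ?_ le_sup_right)
      rw [← pow_mul]
      exact le_sup_of_le_left (Ideal.pow_le_pow_right (by omega))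

lemma prod_sup_le (X : Ideal O) {ι : Type*} (s : Finset ι) (Y : ι → Ideal O) :
    ∏ j ∈ s, (X ⊔ Y j) ≤ X ⊔ ∏ j ∈ s, Y j := by
  classical
  induction s using Finset.induction_on with
  | empty => simp
  | insert a s ha ih =>
    rw [Finset.prod_insert ha, Finset.prod_insert ha]
    refine (Ideal.mul_mono_right ih).trans ?_
    rw [Ideal.sup_mul, Ideal.mul_sup (Y a)]
    refine sup_le (le_sup_of_le_left Ideal.mul_le_left) (sup_le ?_ le_sup_right)
    exact le_sup_of_le_left Ideal.mul_le_right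

end

section

variable {O : Type*} [CommRing O] [IsDedekindDomain O]

theorem amp_prod (p r t : ℕ) (hp : p.Prime) (hr : 1 ≤ r) (ht : r ≤ p ^ t) {ι : Type*}
    [Fintype ι] (u v : ι → O) (C : ι → Ideal O) (hC : ∀ j, C j ≠ 0) (hu : ∀ j, u j ∈ C j)
    (hv : ∀ j, v j ∈ C j) (h : ∏ j, (u j - v j) ∈ Ideal.span {(p : O)} * ∏ j, C j) :
    ∏ j, (u j ^ (p ^ (t + (r - 1))) - v j ^ (p ^ (t + (r - 1)))) ∈
      Ideal.span {(p : O)} ^ r * (∏ j, C j) ^ (p ^ (t + (r - 1))) := by
  classical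
  have h1 : ∀ j, ∃ A : Ideal O, Ideal.span {u j - v j} = C j * A := by
    intro j
    have h2 : Ideal.span {u j - v j} ≤ C j :=
      (Ideal.span_singleton_le_iff_mem _).2 (sub_mem (hu j) (hv j))
    exact Ideal.dvd_iff_le.2 h2
  choose A hA using h1
  have hC0 : ∏ j, C j ≠ 0 := Finset.prod_ne_zero_iff.2 fun j _ => hC j
  have hprod : ∏ j, A j ≤ Ideal.span {(p : O)} := by
    have h2 : Ideal.span {∏ j, (u j - v j)} = (∏ j, C j) * ∏ j, A j := by
      rw [← Finset.prod_mul_distrib, ← Ideal.prod_span_singleton]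
      exact Finset.prod_congr rfl fun j _ => hA j
    have h3 : (∏ j, C j) * ∏ j, A j ≤ (∏ j, C j) * Ideal.span {(p : O)} := by
      rw [← h2, mul_comm]
      exact (Ideal.span_singleton_le_iff_mem _).2 h
    have h4 := Ideal.dvd_iff_le.2 h3
    exact Ideal.dvd_iff_le.1 ((mul_dvd_mul_iff_left hC0).1 h4)
  have h2 : ∀ j ∈ (Finset.univ : Finset ι),
      u j ^ (p ^ (t + (r - 1))) - v j ^ (p ^ (t + (r - 1))) ∈
      (Ideal.span {(p : O)} ^ r ⊔ A j ^ (p ^ t)) * C j ^ (p ^ (t + (r - 1))) := by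
    intro j _
    have h3 : u j - v j ∈ A j * C j := by
      rw [mul_comm, ← hA j]
      exact Ideal.mem_span_singleton_self _
    have h4 := amp p t (r - 1) hp (A j) (C j) (hv j) h3
    rwa [Nat.sub_add_cancel hr] at h4
  have h3 := Ideal.prod_mem_prod h2
  rw [Finset.prod_mul_distrib, Finset.prod_pow] at h3
  refine Ideal.mul_mono_left ?_ h3
  refine (prod_sup_le _ _ _).trans (sup_le le_rfl ?_)
  rw [Finset.prod_pow]
  exact (Ideal.pow_right_mono hprod _).trans (Ideal.pow_le_pow_right ht)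

end

end Pool.Agent.helper69.SLH
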