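import Pool.Agent.helper69.SLH.Good

set_option autoImplicit false

/-!
# The descent in the level, general degrees (helper69)
-/

namespace Pool.Agent.helper69.SLH

open NumberField Height Finset Module IntermediateField Polynomial
open Pool.Agent.helper79.SL Pool.Agent.helper69.SLR Pool.Agent.helper69.SLG
open scoped Pointwise

section

variable {L : Type*} [Field L] [NumberField L]

lemma minpoly_of_coeff {E Et : IntermediateField ℚ L} (hE : E ≤ Et) (x : L)
    (h : ∀ i, ((minpoly Et x).coeff i : L) ∈ E) :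
    (minpoly E x).map (algebraMap E L) = (minpoly Et x).map (algebraMap Et L) := by
  have hxE : IsIntegral E x := Algebra.IsIntegral.isIntegral x
  have hxEt : IsIntegral Et x := Algebra.IsIntegral.isIntegral x
  set F := (minpoly Et x).map (algebraMap Et L) with hF
  have hFm : F.Monic := (minpoly.monic hxEt).map _
  have hFx : F.eval x = 0 := by rw [hF, eval_map, ← aeval_def, minpoly.aeval]
  have hdegF : F.natDegree = (minpoly Et x).natDegree := natDegree_map _
  have hlift : F ∈ lifts (algebraMap E L) := by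
    rw [lifts_iff_coeff_lifts]
    intro i
    refine ⟨⟨_, h i⟩, ?_⟩
    rw [hF, coeff_map]
    rfl
  obtain ⟨q, hq1, hq2, hq3⟩ := lifts_and_natDegree_eq_and_monic hlift hFm
  have hqx : aeval x q = 0 := by rw [aeval_def, ← eval_map, hq1, hFx]
  have hd1 : minpoly E x ∣ q := minpoly.dvd E x hqx
  -- the other degree
  set G : Et[X] := (minpoly E x).map (IntermediateField.inclusion hE : E →+* Et) with hG
  have hGL : G.map (algebraMap Et L) = (minpoly E x).map (algebraMap E L) := by
    rw [hG, Polynomial.map_map]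
    rfl
  have hGx : aeval x G = 0 := by
    rw [aeval_def, ← eval_map, hGL, eval_map, ← aeval_def, minpoly.aeval]
  have hGm : G.Monic := (minpoly.monic hxE).map _
  have hd2 : (minpoly Et x).natDegree ≤ (minpoly E x).natDegree := by
    have h1 := natDegree_le_natDegree (minpoly.min Et x hGm hGx)
    exact h1.trans (natDegree_map_le)
  have h1 : q = minpoly E x := by
    apply eq_of_monic_of_dvd_of_natDegree_le (minpoly.monic hxE) hq3 hd1
    rw [hq2, hdegF]
    exact hd2
  rw [← h1, hq1]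

lemma minpoly_smul_aux {Et : IntermediateField ℚ L} (c : Et) (x : L) :
    minpoly Et ((c : L) * x) ∣ (minpoly Et x).scaleRoots c :=
  minpoly.dvd _ _ (scaleRoots_aeval_eq_zero (r := c) (minpoly.aeval Et x))

lemma minpoly_smul {Et : IntermediateField ℚ L} (c : Et) (hc : c ≠ 0) (x : L) :
    minpoly Et ((c : L) * x) = (minpoly Et x).scaleRoots c := by
  have hx : IsIntegral Et x := Algebra.IsIntegral.isIntegral x
  have hcx : IsIntegral Et ((c : L) * x) := Algebra.IsIntegral.isIntegral _
  have h1 : ∀ (d : Et) (z : L), (minpoly Et ((d : L) * z)).natDegree ≤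
      (minpoly Et z).natDegree := by
    intro d z
    have hz : IsIntegral Et z := Algebra.IsIntegral.isIntegral z
    have h2 := natDegree_le_of_dvd (minpoly_smul_aux d z)
      ((monic_scaleRoots_iff d).2 (minpoly.monic hz)).ne_zero
    rwa [natDegree_scaleRoots] at h2
  symm
  apply eq_of_monic_of_dvd_of_natDegree_le (minpoly.monic hcx)
    ((monic_scaleRoots_iff c).2 (minpoly.monic hx)) (minpoly_smul_aux c x)
  rw [natDegree_scaleRoots]
  have h2 := h1 c⁻¹ ((c : L) * x)
  have hc' : (c : L) ≠ 0 := by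
    intro h
    exact hc (Subtype.ext h)
  have h3 : ((c⁻¹ : Et) : L) * ((c : L) * x) = x := by
    have : ((c⁻¹ : Et) : L) = (c : L)⁻¹ := rfl
    rw [this, inv_mul_cancel_left₀ hc']
  rwa [h3] at h2

/-- a conjugate over `E` is a conjugate over `Et` -/
lemma conj_transfer [IsGalois ℚ L] {E Et : IntermediateField ℚ L} (hE : E ≤ Et) (x : L)
    (h : ∀ i, ((minpoly Et x).coeff i : L) ∈ E) (τ : L ≃ₐ[E] L) :
    ∃ τ' : L ≃ₐ[Et] L, τ' x = τ x := by
  have : IsGalois Et L := IsGalois.tower_top_intermediateField Et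
  have hxEt : IsIntegral Et x := Algebra.IsIntegral.isIntegral x
  have h1 : aeval (τ x) (minpoly Et x) = 0 := by
    rw [aeval_def, ← eval_map, ← minpoly_of_coeff hE x h, eval_map, ← aeval_def]
    have h2 := Polynomial.aeval_algHom_apply (τ : L →ₐ[E] L) x (minpoly E x)
    rw [minpoly.aeval, map_zero] at h2
    exact h2
  exact minpoly.exists_algEquiv_of_root' hxEt.isAlgebraic h1

/-- **The lower bound of the height.** -/
theorem desc' [IsGalois ℚ L] (f p D a b r t q : ℕ) (hp : p.Prime)
    (hr : 1 ≤ r) (ht : r ≤ p ^ t) (hq : q = p ^ (t + (r - 1)))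
    (ha : 2 * D * p ^ 2 ≤ p ^ a) (hb : 2 * D * p ^ (a + (t + (r - 1)) + 1) ≤ p ^ b)
    (hab : a ≤ b) (K : IntermediateField ℚ L) [Normal ℚ K] (hD : LocDeg p D K)
    (Et : IntermediateField ℚ L) (hKt : K ≤ Et) (m : ℕ) :
    0 < m → ∀ Z : L, IsPrimitiveRoot Z m → Z ∈ Et → ∀ x : L, x ≠ 0 →
    (∀ k : ℕ, 0 < k → x ^ k ≠ 1) → (minpoly Et x).natDegree ≤ f →
    (∀ i, ((minpoly Et x).coeff i : L) ∈ K ⊔ ℚ⟮Z⟯) →
    (∀ (τ : L ≃ₐ[Et] L) (ω : L) (j : ℕ), ω ^ (p ^ j) = 1 → τ x = ω * x → ω = 1) →
    finrank ℚ L * (r * Real.log p - f * Real.log 2) ≤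
      f * (2 * (p ^ (D.factorial + b) * q : ℕ) * logHeight₁ x) := by
  induction m using Nat.strong_induction_on with
  | _ m ih =>
  intro hm Z hZ hZt x hx0 hxt hdegt hcoefx hstab
  have hq0 : 0 < q := by
    rw [hq]
    exact pow_pos hp.pos _
  have hmN : NeZero m := ⟨hm.ne'⟩
  have hcyc : IsCyclotomicExtension {m} ℚ ℚ⟮Z⟯ := cycL hZ
  have hgc : IsGalois ℚ ℚ⟮Z⟯ := IsCyclotomicExtension.isGalois {m} ℚ ℚ⟮Z⟯
  set E : IntermediateField ℚ L := K ⊔ ℚ⟮Z⟯ with hE
  have hEn : Normal ℚ E := normal_sup' K ℚ⟮Z⟯ inferInstance hgc.to_normal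
  have hEg : IsGalois ℚ E := {}
  have hKE : K ≤ E := le_sup_left
  have hEt : E ≤ Et := sup_le hKt (adjoin_simple_le_iff.2 hZt)
  have hZE : Z ∈ E := (le_sup_right : ℚ⟮Z⟯ ≤ E) (mem_adjoin_simple_self ℚ Z)
  set ZE : E := ⟨Z, hZE⟩ with hZEdef
  have hZEL : ((ZE : E) : L) = Z := rfl
  have hZp : IsPrimitiveRoot ZE m := IsPrimitiveRoot.coe_submonoidClass_iff.1 hZ
  have hZ0 : Z ≠ 0 := hZ.ne_zero hm.ne'
  set KE : IntermediateField ℚ E := IntermediateField.restrict hKE with hKEdef
  have hKEn : Normal ℚ KE := normal_restrict hKE inferInstance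
  have hDE : LocDeg p D KE :=
    LocDeg.of_hom ((IntermediateField.restrictAlgEquiv hKE).symm : KE →+* K) hD
  have htop : KE ⊔ ℚ⟮ZE⟯ = ⊤ := by
    rw [eq_top_iff]
    intro c _
    exact (lift_gen hKE Z hZE c).2 c.2
  have hdeg : (minpoly E x).natDegree ≤ f := by
    have h1 := congrArg natDegree (minpoly_of_coeff hEt x hcoefx)
    rw [natDegree_map, natDegree_map] at h1
    rw [h1]
    exact hdegt
  have hlift : ∀ σK : E ≃ₐ[ℚ] E, ∀ c : E, (σK.liftNormal L) (c : L) = (σK c : L) :=
    fun σK c => AlgEquiv.liftNormal_commutes σK L c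
  have hnn : 0 ≤ logHeight₁ x := zero_le_logHeight₁ x
  have hf0 : (0 : ℝ) ≤ f := by positivity
  have hfin : ∀ A : ℕ, A ≤ p ^ (D.factorial + b) →
      finrank ℚ L * (r * Real.log p - f * Real.log 2) ≤
        f * (2 * (A * q : ℕ) * logHeight₁ x) →
      finrank ℚ L * (r * Real.log p - f * Real.log 2) ≤
        f * (2 * (p ^ (D.factorial + b) * q : ℕ) * logHeight₁ x) := by
    intro A hA h
    refine h.trans (mul_le_mul_of_nonneg_left (mul_le_mul_of_nonneg_right ?_ hnn) hf0)
    have : ((A * q : ℕ) : ℝ) ≤ ((p ^ (D.factorial + b) * q : ℕ) : ℝ) := by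
      exact_mod_cast Nat.mul_le_mul_right q hA
    linarith
  obtain ⟨P₀, hP₀, hmem₀⟩ := exists_prime (E := E) p hp
  set a' := a + (t + (r - 1)) with ha'
  have haa : p ^ a ≤ p ^ a' := Nat.pow_le_pow_right hp.pos (Nat.le_add_right _ _)
  by_cases hbig : 2 * D * p ^ (a' + 1) < P₀.ramificationIdx ℤ
  · -- the ramified case
    have hbig0 : 2 * D * p ^ (a + 1) < P₀.ramificationIdx ℤ := by
      refine lt_of_le_of_lt (Nat.mul_le_mul_left (2 * D) ?_) hbig
      exact Nat.pow_le_pow_right hp.pos (by omega)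
    obtain ⟨_, -, -, -, hdvd, -, -⟩ :=
      ram p D a' hp KE hDE hZp htop (ha.trans haa) P₀ hmem₀ hbig
    obtain ⟨σ₀, hσK, hσ1, hσp, -, hσZ, hcong⟩ :=
      ram p D a hp KE hDE hZp htop ha P₀ hmem₀ hbig0
    obtain ⟨hfix, hmemσ, htw⟩ := gen_of_ram hp KE hZp htop hσ1 hdvd hσK hσZ
    by_cases hex : ∀ ρ : L ≃ₐ[ℚ] L, (∀ c : E, ρ (c : L) = (σ₀ c : L)) →
        x ^ (p ^ a * q) ≠ (ρ x) ^ (p ^ a * q)
    · refine hfin (p ^ a) (Nat.pow_le_pow_right hp.pos (hab.trans (Nat.le_add_left _ _))) ?_
      exact good' E f p 0 a (p ^ a) (p ^ a) r t q hp (by rw [zero_add]) rfl hr ht hq σ₀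
        (σ₀.liftNormal L) (hlift σ₀) hcong x hdeg hex
    · push Not at hex
      obtain ⟨ρ, hρ1, hρ2⟩ := hex
      have hpaq : p ^ a * q = p ^ a' := by rw [hq, ha', ← pow_add]
      rw [hpaq] at hρ2
      obtain ⟨m₂, hm₂⟩ := hdvd
      have hpa : NeZero (p ^ a') := ⟨(pow_pos hp.pos _).ne'⟩
      have hη : IsPrimitiveRoot (Z ^ (p ^ 2 * m₂)) (p ^ a') := hZ.pow hm (by rw [hm₂]; ring)
      obtain ⟨s, -, hs⟩ := hη.eq_pow_of_pow_eq_one (ξ := ρ x / x) (by
        rw [div_pow, ← hρ2, div_self (pow_ne_zero _ hx0)])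
      set ξ : E := (ZE ^ (p ^ 2 * m₂)) ^ s with hξ
      have hξL : ((ξ : E) : L) = ρ x / x := by
        rw [← hs, hξ]
        rfl
      have hρx : ρ x = (ξ : L) * x := by rw [hξL, div_mul_cancel₀ _ hx0]
      have hξP : ξ ^ (p ^ a') = 1 := by
        have e1 : (p ^ 2 * m₂) * (s * p ^ a') = m * s := by rw [hm₂]; ring
        rw [hξ, ← pow_mul, ← pow_mul, e1, pow_mul, hZp.pow_eq_one, one_pow]
      have hσξ : σ₀ ξ = ξ := by
        apply hfix
        rw [pow_succ, pow_mul, hξP, one_pow]
      have hρξ : ρ (ξ : L) = (ξ : L) := by rw [hρ1, hσξ]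
      have hρi : ∀ i : ℕ, (ρ ^ i) x = (ξ : L) ^ i * x := by
        intro i
        induction i with
        | zero => simp
        | succ i ih =>
          rw [pow_succ', AlgEquiv.mul_apply, ih, map_mul, map_pow, hρξ, hρx]
          ring
      have hρic : ∀ (i : ℕ) (c : E), (ρ ^ i) (c : L) = ((σ₀ ^ i) c : L) := by
        intro i
        induction i with
        | zero => intro c; simp
        | succ i ih => intro c; rw [pow_succ, AlgEquiv.mul_apply, hρ1, ih, pow_succ,
            AlgEquiv.mul_apply]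
      -- `ξ ^ p = 1`
      have hξp : ξ ^ p = 1 := by
        let τ : L ≃ₐ[E] L := AlgEquiv.ofRingEquiv (f := ((ρ ^ p : L ≃ₐ[ℚ] L) : L ≃+* L)) (by
          intro c
          have h1 := hρic p c
          rw [hσp, AlgEquiv.one_apply] at h1
          exact h1)
        have hτ : τ x = ((ξ ^ p : E) : L) * x := by
          have h1 := hρi p
          have h2 : ((ξ ^ p : E) : L) = (ξ : L) ^ p := rfl
          rw [h2]
          exact h1
        obtain ⟨τ', hτ'⟩ := conj_transfer hEt x hcoefx τ
        have h3 := hstab τ' ((ξ ^ p : E) : L) a' (by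
          have h4 : (ξ ^ p) ^ (p ^ a') = 1 := by rw [← pow_mul, mul_comm, pow_mul, hξP, one_pow]
          have h5 := congrArg (fun c : E => (c : L)) h4
          exact h5) (hτ'.trans hτ)
        exact Subtype.ext h3
      obtain ⟨j, hj⟩ := htw ξ hξp
      have hjL : ρ (Z ^ j) * (ξ : L) = Z ^ j := by
        have h1 := congrArg (fun c : E => (c : L)) hj
        have h2 := hρ1 (ZE ^ j)
        simp only [MulMemClass.coe_mul, SubmonoidClass.coe_pow, hZEL] at h1 h2
        rw [h2]
        exact h1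
      set y := Z ^ j * x with hy
      have hρy : ρ y = y := by
        rw [hy, map_mul, hρx, ← mul_assoc, hjL]
      have hy0 : y ≠ 0 := mul_ne_zero (pow_ne_zero _ hZ0) hx0
      have hZj : (Z ^ j) ^ m = 1 := by rw [← pow_mul, mul_comm, pow_mul, hZ.pow_eq_one, one_pow]
      have hyt : ∀ k : ℕ, 0 < k → y ^ k ≠ 1 := by
        intro k hk h8
        apply hxt (k * m) (Nat.mul_pos hk hm)
        have h9 : (Z ^ j * x) ^ (k * m) = 1 := by rw [pow_mul, ← hy, h8, one_pow]
        rw [mul_pow, mul_comm k m, pow_mul (Z ^ j), hZj, one_pow, one_mul, mul_comm] at h9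
        exact h9
      -- the minimal polynomial of `y` over the top field
      set ct : Et := ⟨Z ^ j, pow_mem hZt j⟩ with hct
      have hct0 : ct ≠ 0 := by
        intro h
        exact pow_ne_zero j hZ0 (congrArg (fun c : Et => (c : L)) h)
      have hmy : minpoly Et y = (minpoly Et x).scaleRoots ct := minpoly_smul ct hct0 x
      have hdegy : (minpoly Et y).natDegree ≤ f := by
        rw [hmy, natDegree_scaleRoots]
        exact hdegt
      have hcoefy : ∀ i, ((minpoly Et y).coeff i : L) ∈ E := by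
        intro i
        rw [hmy, coeff_scaleRoots]
        have h1 : (((minpoly Et x).coeff i * ct ^ ((minpoly Et x).natDegree - i) : Et) : L) =
            ((minpoly Et x).coeff i : L) * (Z ^ j) ^ ((minpoly Et x).natDegree - i) := rfl
        rw [h1]
        exact mul_mem (hcoefx i) (pow_mem (pow_mem hZE j) _)
      have hstaby : ∀ (τ : L ≃ₐ[Et] L) (ω : L) (j : ℕ), ω ^ (p ^ j) = 1 → τ y = ω * y →
          ω = 1 := by
        intro τ ω i hω hτ
        apply hstab τ ω i hω
        rw [hy, map_mul] at hτ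
        have h1 : τ (Z ^ j) = Z ^ j := τ.commutes ct
        rw [h1] at hτ
        have h2 : Z ^ j * τ x = Z ^ j * (ω * x) := by rw [hτ]; ring
        exact mul_left_cancel₀ (pow_ne_zero j hZ0) h2
      have hyint : IsIntegral E y := Algebra.IsIntegral.isIntegral y
      have hQm : (minpoly E y).Monic := minpoly.monic hyint
      have hQfix : (minpoly E y).map (σ₀ : E →+* E) = minpoly E y := by
        apply eq_of_monic_of_dvd_of_natDegree_le hQm (hQm.map _)
        · apply minpoly.dvd
          have h1 : ((algebraMap E L).comp (σ₀ : E →+* E)) =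
              (ρ : L →+* L).comp (algebraMap E L) := by
            ext c
            exact (hρ1 c).symm
          rw [aeval_def, eval₂_map, h1]
          have h2 := hom_eval₂ (minpoly E y) (algebraMap E L) (ρ : L →+* L) y
          rw [← aeval_def, minpoly.aeval, map_zero] at h2
          have h3 : (ρ : L →+* L) y = y := hρy
          rw [h3] at h2
          exact h2.symm
        · exact (natDegree_map_le)
      have hcoef : ∀ i, ((minpoly Et y).coeff i : L) ∈ K ⊔ ℚ⟮Z ^ p⟯ := by
        intro i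
        have h1 : σ₀ ((minpoly E y).coeff i) = (minpoly E y).coeff i := by
          conv_rhs => rw [← hQfix]
          rw [coeff_map]
          rfl
        have h2 := hmemσ _ h1
        have h3 := (lift_gen hKE (Z ^ p) (pow_mem hZE p) ((minpoly E y).coeff i)).1 h2
        have h4 := congrArg (fun F : L[X] => F.coeff i) (minpoly_of_coeff hEt y hcoefy)
        simp only [coeff_map] at h4
        have h5 : ((minpoly E y).coeff i : L) = ((minpoly Et y).coeff i : L) := h4
        rw [← h5]
        exact h3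
      have hmp : m = p * (p ^ (a' + 1) * m₂) := by rw [hm₂]; ring
      have hm₂0 : m₂ ≠ 0 := by
        rintro rfl
        rw [mul_zero] at hm₂
        omega
      have hm'0 : 0 < p ^ (a' + 1) * m₂ :=
        Nat.mul_pos (pow_pos hp.pos _) (Nat.pos_of_ne_zero hm₂0)
      have hm'm : p ^ (a' + 1) * m₂ < m := by
        conv_rhs => rw [hmp]
        exact lt_mul_left hm'0 hp.one_lt
      have h7 := ih _ hm'm hm'0 (Z ^ p) (hZ.pow hm hmp) (pow_mem hZt p) y hy0 hyt hdegy hcoef
        hstaby
      rwa [hy, logHeight_torsion (Z ^ j) x m hm hZj] at h7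
  · -- the Frobenius case
    push Not at hbig
    obtain ⟨σ, hσ⟩ := frob p D hp KE hDE hZp htop
    refine hfin (p ^ (D.factorial + b)) le_rfl ?_
    refine good' E f p D.factorial b _ (p ^ b) r t q hp rfl rfl hr ht hq σ
      (σ.liftNormal L) (hlift σ) ?_ x hdeg ?_
    · intro c
      rw [pow_add, pow_mul]
      apply cong_of_mem p b hp
      intro P hP hmem
      refine ⟨1, ?_, ?_⟩
      · rw [pow_one]
        have h1 := neg_mem (hσ P hP hmem c)
        rwa [neg_sub] at h1
      · rw [one_mul, ramIdx_eq p hp P P₀ hmem hmem₀]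
        exact hbig.trans hb
    · intro ρ _ hρ
      have hlt : p ^ b * q < p ^ (D.factorial + b) * q := by
        apply Nat.mul_lt_mul_of_pos_right _ hq0
        apply Nat.pow_lt_pow_right hp.one_lt
        have := D.factorial_pos
        omega
      obtain ⟨k, hk, hk1⟩ := torsion_of_pow ρ hx0 _ _ hlt hρ
      exact hxt k hk hk1

end

end Pool.Agent.helper69.SLH
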