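import Pool.Agent.helper69.SLH.Amp

set_option autoImplicit false

/-!
# The relative lower bound of the height (helper69)
-/

namespace Pool.Agent.helper69.SLH

open NumberField Height Finset Polynomial Module Pool.Agent.helper79.SL
open Pool.Agent.helper69.SLG

variable {K L : Type*} [Field K] [NumberField K] [Field L] [NumberField L] [Algebra K L]

/-- `r` factors `log p` for the whole family of the conjugates `x j` of `x j0` over `K`. -/
theorem height_ge_amp (p k l A e r t : ℕ) (hp : p.Prime) (hA : A = p ^ (l + k))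
    (he : e = p ^ k) (hr : 1 ≤ r) (ht : r ≤ p ^ t) {q : ℕ} (hq : q = p ^ (t + (r - 1)))
    (σK : K ≃+* K) (σ : L ≃+* L) (hσ : ∀ c : K, σ (algebraMap K L c) = algebraMap K L (σK c))
    (hcong : ∀ c : 𝓞 K, (p : 𝓞 K) ∣ c ^ A - (RingOfIntegers.mapRingEquiv σK c) ^ e)
    {ι : Type*} [Fintype ι] (x : ι → L) (Q : K[X])
    (hQ : Q.map (algebraMap K L) = ∏ j, (X - C (x j))) (j0 : ι)
    (hne : ∀ j, x j0 ^ (A * q) ≠ σ (x j) ^ (e * q))
    (hh : ∀ j, logHeight₁ (x j) = logHeight₁ (x j0)) :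
    finrank ℚ L * (r * Real.log p - Fintype.card ι * Real.log 2) ≤
      Fintype.card ι * (((A * q : ℕ) + (e * q : ℕ)) * logHeight₁ (x j0)) := by
  classical
  set d := Fintype.card ι with hd
  set n := finrank ℚ L with hn
  obtain ⟨N, hN, hNx⟩ := exists_integral_multiples ℤ ℚ (Finset.univ.image x)
  have hNL : (N : L) ≠ 0 := by exact_mod_cast hN
  have hint : ∀ j, IsIntegral ℤ ((N : L) * x j) := by
    intro j
    have := hNx (x j) (Finset.mem_image_of_mem x (Finset.mem_univ j))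
    rwa [zsmul_eq_mul] at this
  set a : ι → 𝓞 L := fun j => ⟨(N : L) * x j, hint j⟩ with ha
  set b : 𝓞 L := (N : 𝓞 L) with hb
  have haL : ∀ j, ((a j : 𝓞 L) : L) = N * x j := fun j => rfl
  have hbL : ((b : 𝓞 L) : L) = N := by rw [hb]; simp
  have hb0 : b ≠ 0 := by
    intro h
    apply hNL
    rw [← hbL, h]
    rfl
  have hbL0 : (b : L) ≠ 0 := by rw [hbL]; exact hNL
  have hxab : ∀ j, x j = (a j : L) / b := by
    intro j
    rw [haL, hbL]
    field_simp
  -- the polynomial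
  set R1 : (𝓞 L)[X] := ∏ j, (C b * X - C (a j)) with hR1
  have hR1L : R1.map (algebraMap (𝓞 L) L) = (C ((N : K) ^ d) * Q).map (algebraMap K L) := by
    have h1 : ∀ j ∈ (Finset.univ : Finset ι), (C b * X - C (a j)).map (algebraMap (𝓞 L) L) =
        C (N : L) * (X - C (x j)) := by
      intro j _
      rw [Polynomial.map_sub, Polynomial.map_mul, Polynomial.map_C, Polynomial.map_C,
        Polynomial.map_X]
      have h2 : algebraMap (𝓞 L) L b = N := hbL
      have h3 : algebraMap (𝓞 L) L (a j) = N * x j := haL j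
      rw [h2, h3, C_mul]
      ring
    have h4 : (C ((N : K) ^ d) * Q).map (algebraMap K L) =
        C (N : L) ^ d * ∏ j, (X - C (x j)) := by
      rw [Polynomial.map_mul, hQ, Polynomial.map_C, map_pow, map_intCast, C_pow]
    rw [h4, hR1, Polynomial.map_prod, Finset.prod_congr rfl h1, Finset.prod_mul_distrib,
      Finset.prod_const, Finset.card_univ]
  have hlift : R1 ∈ lifts (algebraMap (𝓞 K) (𝓞 L)) := by
    rw [lifts_iff_coeff_lifts]
    intro i
    have h1 : ((R1.coeff i : 𝓞 L) : L) = algebraMap K L ((N : K) ^ d * Q.coeff i) := by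
      have h2 := congrArg (fun q : L[X] => q.coeff i) hR1L
      simp only [coeff_map, coeff_C_mul] at h2
      exact h2
    have h2 : IsIntegral ℤ ((N : K) ^ d * Q.coeff i) := by
      have h3 : IsIntegral ℤ (algebraMap K L ((N : K) ^ d * Q.coeff i)) := by
        rw [← h1]
        exact (R1.coeff i).2
      exact (isIntegral_algebraMap_iff (algebraMap K L).injective).1 h3
    refine ⟨⟨_, h2⟩, ?_⟩
    apply RingOfIntegers.ext
    rw [h1]
    rfl
  obtain ⟨P, hP⟩ := (mem_lifts _).1 hlift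
  set s := RingOfIntegers.mapRingEquiv σ with hs
  set sK := RingOfIntegers.mapRingEquiv σK with hsK
  have hscomm : ∀ c : 𝓞 K, s (algebraMap (𝓞 K) (𝓞 L) c) = algebraMap (𝓞 K) (𝓞 L) (sK c) := by
    intro c
    apply RingOfIntegers.ext
    exact hσ c
  have hmem0 := mem_rel p l k A e hp hA he sK s hscomm hcong a b hb0 P hP j0
  have hsb0 : s b ≠ 0 := (map_ne_zero_iff s s.injective).2 hb0
  have hmem1 := amp_prod p r t hp hr ht (fun j => a j0 ^ A * (s b) ^ e)
    (fun j => b ^ A * (s (a j)) ^ e)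
    (fun j => (Ideal.span {a j0, b}) ^ A * ((Ideal.span {a j, b}).map (s : 𝓞 L →+* 𝓞 L)) ^ e)
    (by
      intro j h
      have h1 : b ^ A * (s b) ^ e ∈ (Ideal.span {a j0, b}) ^ A *
          ((Ideal.span {a j, b}).map (s : 𝓞 L →+* 𝓞 L)) ^ e :=
        Ideal.mul_mem_mul (Ideal.pow_mem_pow (Ideal.subset_span (by simp)) _)
          (Ideal.pow_mem_pow (Ideal.mem_map_of_mem (s : 𝓞 L →+* 𝓞 L)
            (Ideal.subset_span (by simp))) _)
      rw [h, Submodule.zero_eq_bot, Ideal.mem_bot] at h1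
      exact mul_ne_zero (pow_ne_zero _ hb0) (pow_ne_zero _ hsb0) h1)
    (by
      intro j
      exact Ideal.mul_mem_mul (Ideal.pow_mem_pow (Ideal.subset_span (by simp)) _)
        (Ideal.pow_mem_pow (Ideal.mem_map_of_mem (s : 𝓞 L →+* 𝓞 L)
          (Ideal.subset_span (by simp))) _))
    (by
      intro j
      exact Ideal.mul_mem_mul (Ideal.pow_mem_pow (Ideal.subset_span (by simp)) _)
        (Ideal.pow_mem_pow (Ideal.mem_map_of_mem (s : 𝓞 L →+* 𝓞 L)
          (Ideal.subset_span (by simp))) _))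
    (by
      have e1 : ∏ j : ι, ((Ideal.span {a j0, b}) ^ A *
          ((Ideal.span {a j, b}).map (s : 𝓞 L →+* 𝓞 L)) ^ e) =
          (∏ j, (Ideal.span {a j, b}).map (s : 𝓞 L →+* 𝓞 L)) ^ e *
            (Ideal.span {a j0, b}) ^ (A * d) := by
        rw [Finset.prod_mul_distrib, Finset.prod_const, Finset.prod_pow, Finset.card_univ,
          ← pow_mul, mul_comm]
      rw [e1]
      exact hmem0)
  have hmem : ∏ j, (a j0 ^ (A * q) * (s b) ^ (e * q) - b ^ (A * q) * (s (a j)) ^ (e * q)) ∈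
      Ideal.span {(p : 𝓞 L)} ^ r *
      ((∏ j, (Ideal.span {a j, b}).map (s : 𝓞 L →+* 𝓞 L)) ^ (e * q) *
        (Ideal.span {a j0, b}) ^ (A * q * d)) := by
    have e1 : (∏ j : ι, ((Ideal.span {a j0, b}) ^ A *
        ((Ideal.span {a j, b}).map (s : 𝓞 L →+* 𝓞 L)) ^ e)) ^ (p ^ (t + (r - 1))) =
        (∏ j, (Ideal.span {a j, b}).map (s : 𝓞 L →+* 𝓞 L)) ^ (e * q) *
          (Ideal.span {a j0, b}) ^ (A * q * d) := by
      rw [Finset.prod_mul_distrib, Finset.prod_const, Finset.prod_pow, Finset.card_univ,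
        mul_pow, ← pow_mul, ← pow_mul, ← pow_mul, ← hq, mul_comm, ← hd]
      congr 2
      ring
    rw [e1] at hmem1
    convert hmem1 using 1
    refine Finset.prod_congr rfl fun j _ => ?_
    rw [mul_pow, mul_pow, ← pow_mul, ← pow_mul, ← pow_mul, ← pow_mul, ← hq]
  set U : 𝓞 L := ∏ j, (a j0 ^ (A * q) * (s b) ^ (e * q) - b ^ (A * q) * (s (a j)) ^ (e * q)) with hU
  have hsL : ∀ c : 𝓞 L, ((s c : 𝓞 L) : L) = σ (c : L) := fun c => rfl
  have hU0 : U ≠ 0 := by
    rw [hU, Finset.prod_ne_zero_iff]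
    intro j _ h
    apply hne j
    have h1 : (a j0 : L) ^ (A * q) * (σ b) ^ (e * q) - (b : L) ^ (A * q) * (σ (a j)) ^ (e * q) = 0 := by
      have h2 := congrArg (fun z : 𝓞 L => (z : L)) h
      simpa [hsL] using h2
    have hsb : σ (b : L) ≠ 0 := (map_ne_zero σ).2 hbL0
    rw [hxab j0, hxab j, map_div₀, div_pow, div_pow,
      div_eq_div_iff (pow_ne_zero _ hbL0) (pow_ne_zero _ hsb)]
    linear_combination h1
  obtain ⟨Nj, hNj⟩ : ∃ Nj : ι → ℕ, ∀ j, Nj j = Ideal.absNorm (Ideal.span {a j, b}) :=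
    ⟨_, fun _ => rfl⟩
  have hNj0 : ∀ j, Nj j ≠ 0 := by
    intro j
    rw [hNj, Ne, Ideal.absNorm_eq_zero_iff]
    intro h
    apply hb0
    have : b ∈ Ideal.span {a j, b} := Ideal.subset_span (by simp)
    rw [h] at this
    simpa using this
  have hnorm : Ideal.absNorm (Ideal.span {(p : 𝓞 L)} ^ r *
      ((∏ j, (Ideal.span {a j, b}).map (s : 𝓞 L →+* 𝓞 L)) ^ (e * q) *
        (Ideal.span {a j0, b}) ^ (A * q * d))) =
        (p ^ n) ^ r * ((∏ j, Nj j) ^ (e * q) * Nj j0 ^ (A * q * d)) := by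
    rw [map_mul, map_mul, map_pow, map_pow, map_pow, map_prod, Ideal.absNorm_span_natCast,
      RingOfIntegers.rank, ← hNj j0]
    congr 3
    refine Finset.prod_congr rfl fun j _ => ?_
    rw [absNorm_map_equiv, hNj]
  have hdvd := Ideal.absNorm_dvd_absNorm_of_le ((Ideal.span_singleton_le_iff_mem _).2 hmem)
  rw [hnorm] at hdvd
  have hUn : Ideal.absNorm (Ideal.span {U}) ≠ 0 := by
    rw [Ne, Ideal.absNorm_eq_zero_iff, Ideal.span_singleton_eq_bot]
    exact hU0
  have hle := Nat.le_of_dvd (Nat.pos_of_ne_zero hUn) hdvd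
  -- the upper bound
  obtain ⟨M, hM⟩ : ∃ M : ι → ℝ, ∀ j, M j = ∏ φ : L →+* ℂ, max ‖φ (a j)‖ ‖φ b‖ :=
    ⟨_, fun _ => rfl⟩
  have hub : (Ideal.absNorm (Ideal.span {U}) : ℝ) ≤ ∏ j, (2 ^ n * (M j0 ^ (A * q) * M j ^ (e * q))) := by
    rw [abs_norm_eq]
    have h1 : ∀ φ : L →+* ℂ, ‖φ U‖ ≤ ∏ j, (2 * ((max ‖φ (a j0)‖ ‖φ b‖) ^ (A * q) *
        (max ‖φ.comp (σ : L →+* L) (a j)‖ ‖φ.comp (σ : L →+* L) b‖) ^ (e * q))) := by
      intro φ
      have e0 : ((U : 𝓞 L) : L) = ∏ j, ((a j0 : L) ^ (A * q) * (σ b) ^ (e * q) - (b : L) ^ (A * q) *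
          (σ (a j)) ^ (e * q)) := by
        rw [hU]
        have := map_prod (algebraMap (𝓞 L) L)
          (fun j => a j0 ^ (A * q) * (s b) ^ (e * q) - b ^ (A * q) * (s (a j)) ^ (e * q)) Finset.univ
        refine this.trans (Finset.prod_congr rfl fun j _ => ?_)
        simp [hsL]
      rw [e0, map_prod, norm_prod]
      refine Finset.prod_le_prod (fun j _ => norm_nonneg _) fun j _ => ?_
      have e1 : φ ((a j0 : L) ^ (A * q) * (σ b) ^ (e * q) - (b : L) ^ (A * q) * (σ (a j)) ^ (e * q)) =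
          (φ (a j0)) ^ (A * q) * (φ.comp (σ : L →+* L) b) ^ (e * q) -
          (φ b) ^ (A * q) * (φ.comp (σ : L →+* L) (a j)) ^ (e * q) := by
        simp
      rw [e1]
      refine (norm_sub_le _ _).trans ?_
      rw [norm_mul, norm_mul, norm_pow, norm_pow, norm_pow, norm_pow, two_mul]
      refine add_le_add ?_ ?_
      · exact mul_le_mul (pow_le_pow_left₀ (norm_nonneg _) (le_max_left _ _) _)
          (pow_le_pow_left₀ (norm_nonneg _) (le_max_right _ _) _) (by positivity) (by positivity)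
      · exact mul_le_mul (pow_le_pow_left₀ (norm_nonneg _) (le_max_right _ _) _)
          (pow_le_pow_left₀ (norm_nonneg _) (le_max_left _ _) _) (by positivity) (by positivity)
    refine (Finset.prod_le_prod (fun φ _ => norm_nonneg _) fun φ _ => h1 φ).trans ?_
    rw [Finset.prod_comm]
    refine le_of_eq (Finset.prod_congr rfl fun j _ => ?_)
    rw [Finset.prod_mul_distrib, Finset.prod_mul_distrib, Finset.prod_pow,
      Finset.prod_pow, prod_comp σ (fun φ => max ‖φ (a j)‖ ‖φ b‖),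
      Finset.prod_const, Finset.card_univ, Embeddings.card, ← hM, ← hM]
  have hMh : ∀ j, M j = mulHeight₁ (x j) * Nj j := by
    intro j
    rw [hxab j, hM, hNj]
    exact (mulHeight₁_frac (a j) b hb0).symm
  have hNpos : ∀ j, (0 : ℝ) < Nj j := fun j => by exact_mod_cast Nat.pos_of_ne_zero (hNj0 j)
  have hmain : (((p : ℝ)) ^ n) ^ r ≤ ∏ j, (2 ^ n * (mulHeight₁ (x j0) ^ (A * q) * mulHeight₁ (x j) ^ (e * q))) := by
    have h1 : (((p : ℝ)) ^ n) ^ r * ((∏ j, (Nj j : ℝ)) ^ (e * q) * (Nj j0 : ℝ) ^ (A * q * d)) ≤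
        (∏ j, (2 ^ n * (mulHeight₁ (x j0) ^ (A * q) * mulHeight₁ (x j) ^ (e * q)))) *
          ((∏ j, (Nj j : ℝ)) ^ (e * q) * (Nj j0 : ℝ) ^ (A * q * d)) := by
      calc _ = (((p ^ n) ^ r * ((∏ j, Nj j) ^ (e * q) * Nj j0 ^ (A * q * d)) : ℕ) : ℝ) := by push_cast; rfl
        _ ≤ (Ideal.absNorm (Ideal.span {U}) : ℝ) := by exact_mod_cast hle
        _ ≤ _ := hub
        _ = _ := by
          have h2 : ∀ j ∈ (Finset.univ : Finset ι), (2 : ℝ) ^ n * (M j0 ^ (A * q) * M j ^ (e * q)) =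
              (2 ^ n * (mulHeight₁ (x j0) ^ (A * q) * mulHeight₁ (x j) ^ (e * q))) *
                ((Nj j : ℝ) ^ (e * q) * (Nj j0 : ℝ) ^ (A * q)) := by
            intro j _
            rw [hMh j0, hMh j, mul_pow, mul_pow]
            ring
          have h5 : ∏ j, ((Nj j : ℝ) ^ (e * q) * (Nj j0 : ℝ) ^ (A * q)) =
              (∏ j, (Nj j : ℝ)) ^ (e * q) * (Nj j0 : ℝ) ^ (A * q * d) := by
            rw [Finset.prod_mul_distrib, Finset.prod_pow, Finset.prod_const, Finset.card_univ,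
              ← pow_mul, ← hd]
          rw [Finset.prod_congr rfl h2, Finset.prod_mul_distrib, h5]
    refine le_of_mul_le_mul_right h1 ?_
    exact mul_pos (pow_pos (Finset.prod_pos fun j _ => hNpos j) _) (pow_pos (hNpos j0) _)
  have hp' : (0 : ℝ) < p := by exact_mod_cast hp.pos
  have h3 := Real.log_le_log (by positivity) hmain
  have hH : ∀ j, (0 : ℝ) < mulHeight₁ (x j) := fun j => mulHeight₁_pos _
  rw [Real.log_pow, Real.log_pow, Real.log_prod (fun j _ => by
    have := hH j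
    have := hH j0
    positivity)] at h3
  have h4 : ∀ j ∈ (Finset.univ : Finset ι),
      Real.log (2 ^ n * (mulHeight₁ (x j0) ^ (A * q) * mulHeight₁ (x j) ^ (e * q))) =
      n * Real.log 2 + ((A * q : ℕ) + (e * q : ℕ)) * logHeight₁ (x j0) := by
    intro j _
    rw [Real.log_mul (by positivity) (mul_ne_zero (pow_ne_zero _ (hH j0).ne')
      (pow_ne_zero _ (hH j).ne')), Real.log_mul (pow_ne_zero _ (hH j0).ne')
      (pow_ne_zero _ (hH j).ne'), Real.log_pow, Real.log_pow, Real.log_pow,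
      ← logHeight₁_eq_log_mulHeight₁, ← logHeight₁_eq_log_mulHeight₁, hh j]
    ring
  rw [Finset.sum_congr rfl h4, Finset.sum_const, Finset.card_univ, nsmul_eq_mul, ← hd] at h3
  linarith

end Pool.Agent.helper69.SLH
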