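import Pool.Agent.helper69.SLG.DescB
import Pool.Agent.helper69.SLH.Rel

set_option autoImplicit false

/-!
# The descent in the level, general degrees (helper69)
-/

namespace Pool.Agent.helper69.SLH

open NumberField Height Finset Module IntermediateField Polynomial
open Pool.Agent.helper79.SL Pool.Agent.helper69.SLR Pool.Agent.helper69.SLG
open scoped Pointwise

section

variable {L : Type*} [Field L] [NumberField L]

/-- the good case -/
lemma good' [IsGalois ℚ L] (K : IntermediateField ℚ L) (f p l k A e r t q : ℕ)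
    (hp : p.Prime) (hA : A = p ^ (l + k)) (he : e = p ^ k)
    (hr : 1 ≤ r) (ht : r ≤ p ^ t) (hq : q = p ^ (t + (r - 1)))
    (σK : K ≃ₐ[ℚ] K) (σ : L ≃ₐ[ℚ] L) (hσ : ∀ c : K, σ (c : L) = (σK c : L))
    (hcong : ∀ c : 𝓞 K, (p : 𝓞 K) ∣ c ^ A - (σK • c) ^ e)
    (x : L) (hdeg : (minpoly K x).natDegree ≤ f)
    (hne : ∀ ρ : L ≃ₐ[ℚ] L, (∀ c : K, ρ (c : L) = (σK c : L)) →
      x ^ (A * q) ≠ (ρ x) ^ (e * q)) :
    finrank ℚ L * (r * Real.log p - f * Real.log 2) ≤
      f * (2 * (A * q : ℕ) * logHeight₁ x) := by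
  classical
  have : IsGalois K L := IsGalois.tower_top_intermediateField K
  set Q := minpoly K x with hQ
  have hxint : IsIntegral K x := Algebra.IsIntegral.isIntegral x
  have hQm : Q.Monic := minpoly.monic hxint
  have hQs : Q.Separable := (IsGalois.separable K x)
  have hQsp : (Q.map (algebraMap K L)).Splits := Normal.splits inferInstance x
  have hx : x ∈ Q.rootSet L := mem_rootSet.2 ⟨hQm.ne_zero, minpoly.aeval K x⟩
  have hQprod : Q.map (algebraMap K L) = ∏ j : Q.rootSet L, (X - C (j : L)) := by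
    have h1 := hQsp.eq_prod_roots_of_monic (hQm.map _)
    have h2 : (Q.map (algebraMap K L)).roots.Nodup := nodup_roots (hQs.map)
    have h3 : ∏ j ∈ (Q.map (algebraMap K L)).roots.toFinset, (X - C j) =
        ∏ j : Q.rootSet L, (X - C (j : L)) := by
      refine Finset.prod_subtype _ (fun j => ?_) _
      rw [Multiset.mem_toFinset, mem_rootSet', mem_roots', IsRoot.def, aeval_def, eval_map]
    rw [← h3]
    refine h1.trans ?_
    rw [Finset.prod_multiset_map_count]
    refine Finset.prod_congr rfl fun j hj => ?_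
    rw [Multiset.count_eq_one_of_mem h2 (Multiset.mem_toFinset.1 hj), pow_one]
  have hcard : Fintype.card (Q.rootSet L) = Q.natDegree := card_rootSet_eq_natDegree hQs hQsp
  have hconj : ∀ j : Q.rootSet L, ∃ τ : L ≃ₐ[K] L, τ x = j := by
    intro j
    exact minpoly.exists_algEquiv_of_root' hxint.isAlgebraic (mem_rootSet.1 j.2).2
  have hmain := height_ge_amp p k l A e r t hp hA he hr ht hq (σK : K ≃+* K) (σ : L ≃+* L) hσ
    (fun c => hcong c)
    (fun j : Q.rootSet L => (j : L)) Q hQprod ⟨x, hx⟩ (by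
      intro j
      obtain ⟨τ, hτ⟩ := hconj j
      have h1 := hne ((τ.restrictScalars ℚ).trans σ) (by
        intro c
        have h2 : τ (c : L) = c := τ.commutes c
        rw [← hσ c]
        show σ (τ (c : L)) = σ (c : L)
        rw [h2])
      have h3 : ((τ.restrictScalars ℚ).trans σ) x = σ (j : L) := by
        show σ (τ x) = σ (j : L)
        rw [hτ]
      rw [h3] at h1
      exact h1) (by
      intro j
      obtain ⟨τ, hτ⟩ := hconj j
      have := logHeight_aut (τ : L ≃+* L) x
      show logHeight₁ (j : L) = logHeight₁ x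
      rw [← this, ← hτ]
      rfl)
  rw [hcard] at hmain
  have hnn : 0 ≤ logHeight₁ x := zero_le_logHeight₁ x
  have hdn : (0 : ℝ) ≤ finrank ℚ L := by positivity
  have hl2 : 0 ≤ Real.log 2 := Real.log_nonneg (by norm_num)
  have hg : (Q.natDegree : ℝ) ≤ f := by exact_mod_cast hdeg
  have hep : ((e * q : ℕ) : ℝ) ≤ ((A * q : ℕ) : ℝ) := by
    have : e * q ≤ A * q := by
      apply Nat.mul_le_mul_right
      rw [he, hA]
      exact Nat.pow_le_pow_right hp.pos (Nat.le_add_left _ _)
    exact_mod_cast this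
  have h1 : (finrank ℚ L : ℝ) * (r * Real.log p - f * Real.log 2) ≤
      finrank ℚ L * (r * Real.log p - Q.natDegree * Real.log 2) := by
    apply mul_le_mul_of_nonneg_left _ hdn
    have := mul_le_mul_of_nonneg_right hg hl2
    linarith
  have h2 : (Q.natDegree : ℝ) * (((A * q : ℕ) + (e * q : ℕ)) * logHeight₁ x) ≤
      f * (2 * (A * q : ℕ) * logHeight₁ x) := by
    apply mul_le_mul hg _ (by positivity) (by positivity)
    apply mul_le_mul_of_nonneg_right _ hnn
    linarith
  exact h1.trans (hmain.trans h2)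


end

end Pool.Agent.helper69.SLH
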