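import Pool.Agent.helper69.SLG.Main
import Pool.Agent.helper69.SLH.Desc

set_option autoImplicit false

/-!
# Radicals over extensions of bounded degree of `N(μ_∞)`, all degrees (helper69)
-/

namespace Pool.Agent.helper69.SLH

open NumberField Height Finset Module IntermediateField Polynomial
open Pool.Agent.helper79.SL Pool.Agent.helper69.SLR Pool.Agent.helper69.SLG

/-- The height of elements with trivial stabilizer. -/
theorem ht_ge_stab (f p D a b r t q : ℕ) (hf : 1 ≤ f) (hp : p.Prime)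
    (hr : 1 ≤ r) (ht' : r ≤ p ^ t) (hq : q = p ^ (t + (r - 1)))
    (ha : 2 * D * p ^ 2 ≤ p ^ a) (hb : 2 * D * p ^ (a + (t + (r - 1)) + 1) ≤ p ^ b)
    (hab : a ≤ b) (N : IntermediateField ℚ ℂ) (hN : Normal ℚ N) (hD : BddLocDeg p D N) {x : ℂ}
    (hx0 : x ≠ 0) (hxt : ∀ k : ℕ, 0 < k → x ^ k ≠ 1) (hint : IsIntegral (Kinf N) x)
    (hdeg : (minpoly (Kinf N) x).natDegree ≤ f)
    (hstab : ∀ (ω : ℂ) (j : ℕ), ω ^ (p ^ j) = 1 → aeval (ω * x) (minpoly (Kinf N) x) = 0 →
      ω = 1) :
    (r * Real.log p - f * Real.log 2) / (2 * (p ^ (D.factorial + b) * q : ℕ) * f) ≤ ht x := by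
  classical
  set M := minpoly (Kinf N) x with hM
  have hMm : M.Monic := minpoly.monic hint
  obtain ⟨K, hKN, hKf, hKn, m, ζ, hm, hζ, hco⟩ := common_level N hN
    (Finset.range (M.natDegree + 1)) (fun i => ((M.coeff i : Kinf N) : ℂ))
    (fun i _ => (M.coeff i).2)
  have hco' : ∀ i, ((M.coeff i : Kinf N) : ℂ) ∈ K ⊔ ℚ⟮ζ⟯ := by
    intro i
    by_cases hi : i ∈ Finset.range (M.natDegree + 1)
    · exact hco i hi
    · have h1 : M.coeff i = 0 := coeff_eq_zero_of_natDegree_lt (by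
        rw [Finset.mem_range] at hi
        omega)
      rw [h1]
      exact zero_mem _
  have hζalg : IsAlgebraic ℚ ζ := by
    have h2 : IsIntegral ℚ ζ := (hζ.isIntegral hm).tower_top
    exact h2.isAlgebraic
  obtain ⟨θ, hθ⟩ := adjoin_primitive K
  have hθK : θ ∈ K := by
    rw [← hθ]
    exact mem_adjoin_simple_self ℚ θ
  have hθalg : IsAlgebraic ℚ θ := by
    have h1 : IsAlgebraic ℚ (⟨θ, hθK⟩ : K) := Algebra.IsAlgebraic.isAlgebraic _
    exact h1.algebraMap (A := ℂ)
  have hxalg : IsAlgebraic ℚ x := by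
    have := kinf_alg N hN
    exact hint.isAlgebraic.restrictScalars ℚ
  obtain ⟨T, _, _, _, φ, c, hc⟩ := exists_galois ![x, ζ, θ] (by
    intro i; fin_cases i <;> assumption)
  have hc0 : φ (c 0) = x := hc 0
  have hc1 : φ (c 1) = ζ := hc 1
  have hc2 : φ (c 2) = θ := hc 2
  set K' : IntermediateField ℚ T := ℚ⟮c 2⟯ with hK'
  have hmapK : K'.map φ.toRatAlgHom = K := by
    rw [hK', IntermediateField.adjoin_map, Set.image_singleton]
    have : φ.toRatAlgHom (c 2) = θ := hc2
    rw [this, hθ]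
  have hmapE : (K' ⊔ ℚ⟮c 1⟯).map φ.toRatAlgHom = K ⊔ ℚ⟮ζ⟯ := by
    rw [IntermediateField.map_sup, hmapK, IntermediateField.adjoin_map, Set.image_singleton]
    have : φ.toRatAlgHom (c 1) = ζ := hc1
    rw [this]
  let e : K' ≃ₐ[ℚ] K := (K'.equivMap φ.toRatAlgHom).trans (IntermediateField.equivOfEq hmapK)
  have hK'n : Normal ℚ K' := @Normal.of_algEquiv _ _ _ _ _ _ _ _ hKn e.symm
  have hKnf : NumberField K := {}
  have hK'D : LocDeg p D K' := LocDeg.of_hom (e : K' →+* K) (hD K hKN hKn)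
  have hZ : IsPrimitiveRoot (c 1) m := by
    apply IsPrimitiveRoot.of_map_of_injective (f := φ) _ φ.injective
    rw [hc1]
    exact hζ
  have hmem : ∀ y ∈ K ⊔ ℚ⟮ζ⟯, ∃ z ∈ K' ⊔ ℚ⟮c 1⟯, φ z = y := by
    intro y hy
    rw [← hmapE] at hy
    obtain ⟨z, hz, hzy⟩ := hy
    exact ⟨z, hz, hzy⟩
  have hlift : M.map (algebraMap (Kinf N) ℂ) ∈ lifts φ := by
    rw [lifts_iff_coeff_lifts]
    intro i
    obtain ⟨z, -, hz⟩ := hmem _ (hco' i)
    exact ⟨z, by rw [hz, coeff_map]; rfl⟩
  obtain ⟨Q, hq1, hq2, hq3⟩ := lifts_and_natDegree_eq_and_monic hlift (hMm.map _)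
  set Et : IntermediateField ℚ T := K' ⊔ ℚ⟮c 1⟯ with hEt
  have hQc : ∀ i, Q.coeff i ∈ Et := by
    intro i
    obtain ⟨z, hz1, hz2⟩ := hmem _ (hco' i)
    have h1 : φ (Q.coeff i) = φ z := by
      rw [hz2, ← coeff_map, hq1, coeff_map]
      rfl
    rw [φ.injective h1]
    exact hz1
  have hQ0 : Q.eval (c 0) = 0 := by
    apply φ.injective
    rw [map_zero, ← eval₂_hom, ← eval_map, hq1, hc0, eval_map, ← aeval_def, minpoly.aeval]
  have hQd : Q.natDegree ≤ f := by
    rw [hq2]
    exact natDegree_map_le.trans hdeg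
  have hc00 : c 0 ≠ 0 := by
    intro h
    apply hx0
    rw [← hc0, h, map_zero]
  have hct : ∀ k : ℕ, 0 < k → c 0 ^ k ≠ 1 := by
    intro k hk h
    apply hxt k hk
    rw [← hc0, ← map_pow, h, map_one]
  have hst : ∀ (τ : T ≃ₐ[Et] T) (ω : T) (j : ℕ), ω ^ (p ^ j) = 1 → τ (c 0) = ω * c 0 →
      ω = 1 := by
    intro τ ω j hω hτ
    have h1 : Q.eval (τ (c 0)) = 0 := by
      have hlQ : Q ∈ lifts (algebraMap Et T) := by
        rw [lifts_iff_coeff_lifts]
        exact fun i => ⟨⟨Q.coeff i, hQc i⟩, rfl⟩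
      obtain ⟨Q', hQ'⟩ := (mem_lifts _).1 hlQ
      rw [← hQ', eval_map, ← aeval_def]
      have h2 := Polynomial.aeval_algHom_apply (τ : T →ₐ[Et] T) (c 0) Q'
      have h3 : aeval (c 0) Q' = 0 := by rw [aeval_def, ← eval_map, hQ', hQ0]
      rw [h3, map_zero] at h2
      exact h2
    have h2 : φ ω = 1 := by
      apply hstab (φ ω) j
      · rw [← map_pow, hω, map_one]
      · rw [aeval_def, ← eval_map, ← hq1, ← hc0, ← map_mul, ← hτ, eval_map, eval₂_hom, h1,
          map_zero]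
    apply φ.injective
    rw [h2, map_one]
  have hmain := desc' f p D a b r t q hp hr ht' hq ha hb hab K' hK'D Et le_sup_left m hm
    (c 1) hZ ((le_sup_right : ℚ⟮c 1⟯ ≤ Et) (mem_adjoin_simple_self ℚ (c 1))) (c 0) hc00 hct
    (natDegree_le Et hq3 hQd hQ0 hQc) (fun i => ((minpoly Et (c 0)).coeff i).2) hst
  have hht := ht_eq φ (c 0)
  rw [hc0] at hht
  have hd : (0 : ℝ) < finrank ℚ T := by exact_mod_cast (finrank_pos : 0 < finrank ℚ T)
  have hp0 : (0 : ℝ) < ((p ^ (D.factorial + b) * q : ℕ) : ℝ) := by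
    rw [hq]
    exact_mod_cast Nat.mul_pos (pow_pos hp.pos _) (pow_pos hp.pos _)
  have hf0 : (0 : ℝ) < f := by exact_mod_cast hf
  rw [hht, div_le_div_iff₀ (by positivity) hd]
  linarith

/-- removing a nontrivial stabilizer -/
lemma exists_low {K : Type*} [Field K] [Algebra K ℂ] {p : ℕ} (hp : p.Prime) {x : ℂ}
    (hint : IsIntegral K x) (hx0 : x ≠ 0) {ω : K} {j : ℕ} (hω : ω ^ (p ^ j) = 1) (hω1 : ω ≠ 1)
    (h : aeval (algebraMap K ℂ ω * x) (minpoly K x) = 0) :
    (minpoly K (x ^ p)).natDegree * p ≤ (minpoly K x).natDegree := by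
  set M := minpoly K x with hM
  have hMm : M.Monic := minpoly.monic hint
  have hω0 : ω ≠ 0 := by
    rintro rfl
    rw [zero_pow (pow_pos hp.pos j).ne'] at hω
    exact zero_ne_one hω
  -- the scaled polynomial
  have hint' : IsIntegral K (algebraMap K ℂ ω * x) :=
    (isIntegral_algebraMap).mul hint
  have h1 : minpoly K (algebraMap K ℂ ω * x) = M :=
    (minpoly.eq_of_irreducible_of_monic (minpoly.irreducible hint) h hMm).symm
  have h2 : M.scaleRoots ω = M := by
    apply eq_of_monic_of_dvd_of_natDegree_le hMm ((monic_scaleRoots_iff _).2 hMm)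
    · conv_lhs => rw [← h1]
      apply minpoly.dvd
      exact scaleRoots_aeval_eq_zero (r := ω) (minpoly.aeval K x)
    · rw [natDegree_scaleRoots]
  have h3 : ∀ i, M.coeff i ≠ 0 → ω ^ (M.natDegree - i) = 1 := by
    intro i hi
    have h4 := congrArg (fun F : K[X] => F.coeff i) h2
    simp only [coeff_scaleRoots] at h4
    have h5 : M.coeff i * ω ^ (M.natDegree - i) = M.coeff i * 1 := by rw [h4, mul_one]
    exact mul_left_cancel₀ hi h5
  have h4 : ω ^ M.natDegree = 1 := by
    have := h3 0 (minpoly.coeff_zero_ne_zero hint hx0)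
    rwa [Nat.sub_zero] at this
  have hpord : p ∣ orderOf ω := by
    obtain ⟨l, -, hl⟩ := (Nat.dvd_prime_pow hp).1 (orderOf_dvd_of_pow_eq_one hω)
    rw [hl]
    rcases Nat.eq_zero_or_pos l with rfl | h5
    · rw [pow_zero] at hl
      exact absurd (orderOf_eq_one_iff.1 hl) hω1
    · exact dvd_pow_self p h5.ne'
  have h5 : ∀ i, M.coeff i ≠ 0 → p ∣ i := by
    intro i hi
    have h6 : i ≤ M.natDegree := le_natDegree_of_ne_zero hi
    have h7 : ω ^ i = 1 := by
      have h8 : ω ^ i * ω ^ (M.natDegree - i) = 1 := by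
        rw [← pow_add, Nat.add_sub_cancel' h6, h4]
      rwa [h3 i hi, mul_one] at h8
    exact hpord.trans (orderOf_dvd_of_pow_eq_one h7)
  have h6 : expand K p (contract p M) = M := by
    ext i
    rw [coeff_expand hp.pos, coeff_contract hp.ne_zero]
    split_ifs with h7
    · rw [Nat.div_mul_cancel h7]
    · by_contra h8
      exact h7 (h5 i (Ne.symm h8))
  have h7 : aeval (x ^ p) (contract p M) = 0 := by
    rw [← expand_aeval, h6, minpoly.aeval]
  have h8 : (contract p M).Monic := by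
    rw [← monic_expand_iff hp.pos, h6]
    exact hMm
  have h9 : (contract p M).natDegree * p = M.natDegree := by
    rw [← natDegree_expand, h6]
  rw [← h9]
  exact Nat.mul_le_mul_right p (natDegree_le_natDegree (minpoly.min K (x ^ p) h8 h7))

/-- The height of all elements of degree at most `f`. -/
theorem ht_ge_all (f p D a b r t q : ℕ) (hf : 1 ≤ f) (hp : p.Prime)
    (hr : 1 ≤ r) (ht' : r ≤ p ^ t) (hq : q = p ^ (t + (r - 1)))
    (ha : 2 * D * p ^ 2 ≤ p ^ a) (hb : 2 * D * p ^ (a + (t + (r - 1)) + 1) ≤ p ^ b)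
    (hab : a ≤ b) (N : IntermediateField ℚ ℂ) (hN : Normal ℚ N) (hD : BddLocDeg p D N) (δ : ℕ) :
    ∀ x : ℂ, x ≠ 0 → (∀ k : ℕ, 0 < k → x ^ k ≠ 1) → IsIntegral (Kinf N) x →
    (minpoly (Kinf N) x).natDegree ≤ f → (minpoly (Kinf N) x).natDegree = δ →
    (r * Real.log p - f * Real.log 2) / (2 * (p ^ (D.factorial + b) * q : ℕ) * f) ≤
      δ * ht x := by
  induction δ using Nat.strong_induction_on with
  | _ δ ih =>
  intro x hx0 hxt hint hdeg hδ
  have hδ0 : 0 < δ := by
    rw [← hδ]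
    exact minpoly.natDegree_pos hint
  have hnn : 0 ≤ ht x := ht_nonneg x
  by_cases hst : ∀ (ω : ℂ) (j : ℕ), ω ^ (p ^ j) = 1 →
      aeval (ω * x) (minpoly (Kinf N) x) = 0 → ω = 1
  · refine (ht_ge_stab f p D a b r t q hf hp hr ht' hq ha hb hab N hN hD hx0 hxt hint hdeg
      hst).trans ?_
    have : (1 : ℝ) ≤ δ := by exact_mod_cast hδ0
    nlinarith
  · push Not at hst
    obtain ⟨ω, j, hω, hωx, hω1⟩ := hst
    have hωK : ω ∈ Kinf N := root_mem_Kinf N (p ^ j) ω (pow_pos hp.pos j) hω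
    have h1 := exists_low (K := Kinf N) hp hint hx0 (ω := ⟨ω, hωK⟩) (j := j)
      (Subtype.ext hω) (by
        intro h
        exact hω1 (congrArg (fun c : Kinf N => (c : ℂ)) h)) hωx
    rw [hδ] at h1
    set δ' := (minpoly (Kinf N) (x ^ p)).natDegree with hδ'
    have hint' : IsIntegral (Kinf N) (x ^ p) := hint.pow p
    have hδ'0 : 0 < δ' := minpoly.natDegree_pos hint'
    have hlt : δ' < δ := lt_of_lt_of_le (lt_mul_right hδ'0 hp.one_lt) h1
    have h2 := ih δ' hlt (x ^ p) (pow_ne_zero _ hx0)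
      (by
        intro k hk h
        apply hxt (p * k) (Nat.mul_pos hp.pos hk)
        rw [pow_mul]
        exact h)
      hint' (by omega) rfl
    have hxalg : IsAlgebraic ℚ x := by
      have := kinf_alg N hN
      exact hint.isAlgebraic.restrictScalars ℚ
    rw [ht_pow hxalg] at h2
    refine h2.trans ?_
    have h3 : (δ' : ℝ) * p ≤ δ := by exact_mod_cast h1
    calc (δ' : ℝ) * (p * ht x) = (δ' * p) * ht x := by ring
      _ ≤ δ * ht x := mul_le_mul_of_nonneg_right h3 hnn

/-- **Simultaneous Lehmer problem for radicals over extensions of degree `f` of `N(μ_∞)`.** -/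
theorem all_radicals (n f p D : ℕ) (hn : 0 < n) (hf : 1 ≤ f) (hp : p.Prime)
    (N : IntermediateField ℚ ℂ) (hN : Normal ℚ N) (hD : BddLocDeg p D N)
    (F : IntermediateField (Kinf N) ℂ) [FiniteDimensional (Kinf N) F]
    (hF : finrank (Kinf N) F ≤ f)
    (α : Fin n → ℂ) (h0 : ∀ i, α i ≠ 0)
    (hrad : ∀ i, ∃ k : ℕ, 0 < k ∧ α i ^ k ∈ F)
    (hind : ∀ w : Fin n → ℤ, ∏ i, α i ^ w i = 1 → w = 0) :
    finrank F (adjoin F (Set.range α)) ≤ finrank ℚ (adjoin ℚ (Set.range α)) ∧
    (Real.log p / (2 * (p ^ (D.factorial + 2 * D + 8 * f + 3) : ℕ) * f * n)) ^ n /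
      finrank F (adjoin F (Set.range α)) ≤ ∏ i, ht (α i) := by
  classical
  have hp2 := hp.two_le
  have hKalg : Algebra.IsAlgebraic ℚ (Kinf N) := kinf_alg N hN
  have hFint : ∀ y ∈ F, IsIntegral (Kinf N) y := by
    intro y hy
    have h1 : IsIntegral (Kinf N) (⟨y, hy⟩ : F) := Algebra.IsIntegral.isIntegral _
    exact h1.map F.val
  have hFdeg : ∀ y ∈ F, (minpoly (Kinf N) y).natDegree ≤ f := by
    intro y hy
    have h1 := minpoly.natDegree_le (A := Kinf N) (⟨y, hy⟩ : F)
    have h2 : minpoly (Kinf N) (⟨y, hy⟩ : F) = minpoly (Kinf N) y :=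
      (minpoly.algHom_eq F.val F.val.injective (⟨y, hy⟩ : F)).symm
    rw [h2] at h1
    exact h1.trans hF
  have hFalg : ∀ y ∈ F, IsAlgebraic ℚ y := fun y hy =>
    (hFint y hy).isAlgebraic.restrictScalars ℚ
  have halg : ∀ i, IsAlgebraic ℚ (α i) := by
    intro i
    obtain ⟨k, hk, h⟩ := hrad i
    exact (hFalg _ h).of_pow hk
  have hp2' : (2 : ℝ) ≤ p := by exact_mod_cast hp2
  have hlog : 0 < Real.log p := Real.log_pos (by linarith)
  have hp0 : (0 : ℝ) < ((p ^ (D.factorial + 2 * D + 8 * f + 3) : ℕ) : ℝ) := by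
    exact_mod_cast pow_pos hp.pos _
  have hf0 : (0 : ℝ) < f := by exact_mod_cast hf
  have hroot : ∀ (k : ℕ) (ζ : ℂ), 0 < k → ζ ^ k = 1 → ζ ∈ F.restrictScalars ℚ := by
    intro k ζ hk hζ
    exact F.algebraMap_mem (⟨ζ, root_mem_Kinf N k ζ hk hζ⟩ : Kinf N)
  have hDp : 2 * D ≤ p ^ (D + 1) := by
    have h1 : D ≤ p ^ D := (Nat.lt_pow_self hp.one_lt).le
    calc 2 * D ≤ p * p ^ D := Nat.mul_le_mul hp2 h1
      _ = p ^ (D + 1) := (pow_succ' p D).symm
  have hfp : 2 * f ≤ p ^ (2 * f) := (Nat.lt_pow_self hp.one_lt).le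
  refine ⟨?_, ?_⟩
  · exact finrank_adjoin_le (F.restrictScalars ℚ) (Set.finite_range α)
      (by rintro _ ⟨i, rfl⟩; exact halg i)
  · have hmain := prod_ht_ge (F := F.restrictScalars ℚ) hroot hn α h0 halg hrad
      (b := Real.log p / (2 * (p ^ (D.factorial + 2 * D + 8 * f + 3) : ℕ) * f))
      (by positivity) (by
        intro w hw hF'
        have hne : ∏ i, α i ^ w i ≠ 0 :=
          Finset.prod_ne_zero_iff.2 fun i _ => zpow_ne_zero _ (h0 i)
        have hnt : ∀ k : ℕ, 0 < k → (∏ i, α i ^ w i) ^ k ≠ 1 := by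
          intro k hk hpow
          apply hw
          have h2 : ∏ i, α i ^ ((k : ℤ) * w i) = 1 := by
            rw [← hpow, ← Finset.prod_pow]
            refine Finset.prod_congr rfl fun i _ => ?_
            rw [← zpow_natCast, ← zpow_mul, mul_comm]
          have h3 := hind _ h2
          funext i
          have h4 := congrFun h3 i
          simp only [Pi.zero_apply, mul_eq_zero] at h4
          exact h4.resolve_left (by exact_mod_cast hk.ne')
        have h1 := ht_ge_all f p D (D + 3) (2 * D + 4 * f + 4) (2 * f) (2 * f)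
          (p ^ (2 * f + (2 * f - 1))) hf hp (by omega) hfp rfl
          (by
            have e1 : D + 3 = D + 1 + 2 := by omega
            rw [e1, pow_add]
            exact Nat.mul_le_mul_right _ hDp)
          (by
            have e1 : 2 * D + 4 * f + 4 = D + 1 + (D + 3 + (2 * f + (2 * f - 1)) + 1) := by omega
            rw [e1, pow_add p (D + 1)]
            exact Nat.mul_le_mul_right _ hDp)
          (by omega) N hN hD _ _ hne hnt (hFint _ hF') (hFdeg _ hF') rfl
        have hd := hFdeg _ hF'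
        set z := ∏ i, α i ^ w i with hz
        have hnn : 0 ≤ ht z := ht_nonneg z
        have e1 : p ^ (D.factorial + (2 * D + 4 * f + 4)) * p ^ (2 * f + (2 * f - 1)) =
            p ^ (D.factorial + 2 * D + 8 * f + 3) := by
          rw [← pow_add]
          congr 1
          omega
        rw [e1] at h1
        have h2 : ((minpoly (Kinf N) z).natDegree : ℝ) * ht z ≤ f * ht z :=
          mul_le_mul_of_nonneg_right (by exact_mod_cast hd) hnn
        have h3 := h1.trans h2
        have hl2 : Real.log 2 ≤ Real.log p := Real.log_le_log (by norm_num) hp2'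
        have e2 : f * Real.log p ≤ ((2 * f : ℕ) * Real.log p - f * Real.log 2 : ℝ) := by
          push_cast
          nlinarith
        rw [div_le_iff₀ (by positivity)] at h3
        rw [div_le_iff₀ (by positivity)]
        have h4 : f * Real.log p ≤
            f * (ht z * (2 * (p ^ (D.factorial + 2 * D + 8 * f + 3) : ℕ) * f)) := by
          linarith
        exact le_of_mul_le_mul_left h4 hf0)
    rw [div_div] at hmain
    exact hmain

end Pool.Agent.helper69.SLH
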