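import Pool.Agent.helper69.SLH.Main
import Pool.Agent.helper79.SL.Fin

set_option autoImplicit false

/-!
# Tuples whose conjugates over `N(μ_∞)` generate a group of bounded rank (helper69)
-/

namespace Pool.Agent.helper69.SLH

open NumberField Height Finset Module IntermediateField Polynomial
open Pool.Agent.helper79.SL Pool.Agent.helper69.SLR Pool.Agent.helper69.SLG

section rk

variable {k N : Type*} [Field k] [Field N] [Algebra k N]

/-- the action of an automorphism on the (additively written) group of units -/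
noncomputable def actM (σ : N ≃ₐ[k] N) : Additive Nˣ →ₗ[ℤ] Additive Nˣ :=
  (MonoidHom.toAdditive (Units.map (σ : N →* N))).toIntLinearMap

/-- the units which are conjugates over `k` of the `a i` -/
def CC (k : Type*) {N : Type*} [Field k] [Field N] [Algebra k N] {n : ℕ} (a : Fin n → N) :
    Set (Additive Nˣ) :=
  {u | ∃ i, aeval ((Additive.toMul u : Nˣ) : N) (minpoly k (a i)) = 0}

lemma CC_finite [FiniteDimensional k N] {n : ℕ} (a : Fin n → N) : (CC k a).Finite := by
  classical
  have h1 : (⋃ i, ((minpoly k (a i)).rootSet N)).Finite :=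
    Set.finite_iUnion fun i => rootSet_finite _ _
  refine Set.Finite.of_finite_image (f := fun u : Additive Nˣ => ((Additive.toMul u : Nˣ) : N))
    (h1.subset ?_) ?_
  · rintro _ ⟨u, ⟨i, hi⟩, rfl⟩
    exact Set.mem_iUnion.2 ⟨i, mem_rootSet.2 ⟨minpoly.ne_zero (Algebra.IsIntegral.isIntegral _), hi⟩⟩
  · intro u _ v _ h
    exact Units.ext h

lemma actM_mem {n : ℕ} (a : Fin n → N) (σ : N ≃ₐ[k] N) {u : Additive Nˣ} (hu : u ∈ CC k a) :
    actM σ u ∈ CC k a := by
  obtain ⟨i, hi⟩ := hu
  refine ⟨i, ?_⟩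
  have h1 : ((Additive.toMul (actM σ u) : Nˣ) : N) = σ ((Additive.toMul u : Nˣ) : N) := rfl
  rw [h1]
  have h2 := Polynomial.aeval_algHom_apply (σ : N →ₐ[k] N) ((Additive.toMul u : Nˣ) : N)
    (minpoly k (a i))
  rw [hi, map_zero] at h2
  exact h2

lemma actM_span {n : ℕ} (a : Fin n → N) (σ : N ≃ₐ[k] N) :
    ∀ x ∈ Submodule.span ℤ (CC k a), actM σ x ∈ Submodule.span ℤ (CC k a) := by
  intro x hx
  induction hx using Submodule.span_induction with
  | mem x hx => exact Submodule.subset_span (actM_mem a σ hx)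
  | zero => rw [map_zero]; exact Submodule.zero_mem _
  | add x y _ _ hx hy => rw [map_add]; exact Submodule.add_mem _ hx hy
  | smul c x _ hx => rw [map_smul]; exact Submodule.smul_mem _ _ hx

/-- the action on the group generated by the conjugates -/
noncomputable def actA {n : ℕ} (a : Fin n → N) :
    (N ≃ₐ[k] N) →* (Submodule.span ℤ (CC k a) →ₗ[ℤ] Submodule.span ℤ (CC k a)) where
  toFun σ := (actM σ).restrict (actM_span a σ)
  map_one' := by
    apply LinearMap.ext
    intro x
    apply Subtype.ext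
    rfl
  map_mul' σ τ := by
    apply LinearMap.ext
    intro x
    apply Subtype.ext
    rfl

/-- reduction to a field of bounded degree -/
theorem rk_aux [FiniteDimensional k N] [IsGalois k N] {n : ℕ} (r : ℕ) (a : Fin n → N)
    (ha : ∀ i, a i ≠ 0)
    (hdep : ∀ β : Fin (r + 1) → N, (∀ j, β j ≠ 0) →
      (∀ j, ∃ i, aeval (β j) (minpoly k (a i)) = 0) →
      ∃ w : Fin (r + 1) → ℤ, w ≠ 0 ∧ ∏ j, β j ^ w j = 1) :
    ∃ K : IntermediateField k N, finrank k K ≤ 3 ^ (r * r) ∧
      ∀ i, ∃ m : ℕ, 0 < m ∧ a i ^ m ∈ K := by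
  classical
  have : Module.Finite ℤ (Submodule.span ℤ (CC k a)) :=
    Module.Finite.span_of_finite ℤ (CC_finite a)
  have hrank : finrank ℤ (Submodule.span ℤ (CC k a) ⧸
      Submodule.torsion ℤ (Submodule.span ℤ (CC k a))) ≤ r := by
    refine finrank_le_of_dependent (S := ((↑) : Submodule.span ℤ (CC k a) → Additive Nˣ) ⁻¹' (CC k a))
      Submodule.span_span_coe_preimage r ?_
    intro u hu
    obtain ⟨w, hw, hprod⟩ := hdep (fun j => ((Additive.toMul (u j : Additive Nˣ) : Nˣ) : N))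
      (fun j => Units.ne_zero _) (fun j => hu j)
    refine ⟨w, hw, ?_⟩
    apply Subtype.ext
    have h1 : ((∑ j, w j • u j : Submodule.span ℤ (CC k a)) : Additive Nˣ) =
        ∑ j, w j • (u j : Additive Nˣ) := by
      push_cast
      rfl
    rw [h1]
    have h2 : ∏ j, (Additive.toMul (u j : Additive Nˣ)) ^ w j = 1 := by
      apply Units.ext
      rw [Units.val_one, ← hprod, ← Units.coeHom_apply, map_prod]
      refine Finset.prod_congr rfl fun j _ => ?_
      rw [map_zpow, Units.coeHom_apply]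
    have h3 := congrArg Additive.ofMul h2
    rw [ofMul_prod, ofMul_one] at h3
    exact h3
  obtain ⟨H, hH1, hH2⟩ := exists_index_torsion (actA (k := k) a)
  have hidx : H.index ≤ 3 ^ (r * r) :=
    hH1.trans (Nat.pow_le_pow_right (by norm_num) (Nat.mul_le_mul hrank hrank))
  refine ⟨fixedField H, ?_, ?_⟩
  · rw [IntermediateField.finrank_eq_fixingSubgroup_index, IntermediateField.fixingSubgroup_fixedField]
    exact hidx
  · intro i
    have hmem : Additive.ofMul (Units.mk0 (a i) (ha i)) ∈ Submodule.span ℤ (CC k a) :=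
      Submodule.subset_span ⟨i, minpoly.aeval k (a i)⟩
    have hk : ∀ σ : H, ∃ m : ℕ, 0 < m ∧ (σ.1 (a i)) ^ m = (a i) ^ m := by
      intro σ
      obtain ⟨m, hm, h1⟩ := hH2 σ.1 σ.2 ⟨_, hmem⟩
      refine ⟨m, hm, ?_⟩
      have h2 : m • (Additive.ofMul (Units.map (σ.1 : N →* N) (Units.mk0 (a i) (ha i))) -
          Additive.ofMul (Units.mk0 (a i) (ha i))) = 0 := congrArg Subtype.val h1
      have h3 : (Units.map (σ.1 : N →* N) (Units.mk0 (a i) (ha i)) / Units.mk0 (a i) (ha i)) ^ m =
          1 := h2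
      have h4 := congrArg Units.val h3
      rw [Units.val_pow_eq_pow_val, Units.val_div_eq_div_val, Units.val_one, div_pow] at h4
      have h5 : (a i) ^ m ≠ 0 := pow_ne_zero _ (ha i)
      exact (div_eq_one_iff_eq h5).1 h4
    choose m hm0 hm using hk
    refine ⟨∏ σ, m σ, Finset.prod_pos fun σ _ => hm0 σ, ?_⟩
    rw [IntermediateField.mem_fixedField_iff]
    intro σ hσ
    have h1 := hm ⟨σ, hσ⟩
    rw [map_pow, ← Finset.mul_prod_erase Finset.univ m (Finset.mem_univ ⟨σ, hσ⟩), pow_mul, pow_mul,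
      h1]

end rk

/-- **Simultaneous Lehmer problem for tuples whose conjugates over `N(μ_∞)` generate a group of
rank at most `r`** -/
theorem rank_rel (n r p D : ℕ) (hn : 0 < n) (hp : p.Prime)
    (N : IntermediateField ℚ ℂ) (hN : Normal ℚ N) (hD : BddLocDeg p D N)
    (α : Fin n → ℂ) (halg : ∀ i, IsAlgebraic ℚ (α i)) (h0 : ∀ i, α i ≠ 0)
    (hind : ∀ w : Fin n → ℤ, ∏ i, α i ^ w i = 1 → w = 0)
    (hdep : ∀ β : Fin (r + 1) → ℂ, (∀ j, ∃ i, aeval (β j) (minpoly (Kinf N) (α i)) = 0) →
      ∃ w : Fin (r + 1) → ℤ, w ≠ 0 ∧ ∏ j, β j ^ w j = 1) :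
    finrank (Kinf N) (adjoin (Kinf N) (Set.range α)) ≤ finrank ℚ (adjoin ℚ (Set.range α)) ∧
    (Real.log p / (2 * (p ^ (D.factorial + 2 * D + 8 * 3 ^ (r * r) + 3) : ℕ) *
        (3 ^ (r * r) : ℕ) * n)) ^ n /
      finrank (Kinf N) (adjoin (Kinf N) (Set.range α)) ≤ ∏ i, ht (α i) := by
  classical
  have halg' : ∀ i, IsIntegral (Kinf N) (α i) := fun i => (halg i).isIntegral.tower_top
  have hfin : FiniteDimensional (Kinf N) (adjoin (Kinf N) (Set.range α)) :=
    finiteDimensional_adjoin (by rintro _ ⟨i, rfl⟩; exact halg' i)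
  let T : IntermediateField (Kinf N) ℂ :=
    normalClosure (Kinf N) (adjoin (Kinf N) (Set.range α)) ℂ
  have hT1 : FiniteDimensional (Kinf N) T :=
    normalClosure.is_finiteDimensional (Kinf N) (adjoin (Kinf N) (Set.range α)) ℂ
  have : IsNormalClosure (Kinf N) (adjoin (Kinf N) (Set.range α)) T :=
    Algebra.IsAlgebraic.isNormalClosure_normalClosure fun x => IsAlgClosed.splits _
  have hT2 : Normal (Kinf N) T :=
    IsNormalClosure.normal (K := adjoin (Kinf N) (Set.range α))
  have hT3 : IsGalois (Kinf N) T := {}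
  have hmemT : ∀ i, α i ∈ T := fun i =>
    IntermediateField.le_normalClosure _ (subset_adjoin (Kinf N) _ ⟨i, rfl⟩)
  let a : Fin n → T := fun i => ⟨α i, hmemT i⟩
  have ha0 : ∀ i, a i ≠ 0 := fun i h => h0 i (congrArg Subtype.val h)
  have hmin : ∀ i, minpoly (Kinf N) (a i) = minpoly (Kinf N) (α i) := fun i =>
    (minpoly.algHom_eq T.val T.val.injective (a i)).symm
  obtain ⟨K, hK1, hK2⟩ := rk_aux (k := Kinf N) r a ha0 (by
    intro β hβ0 hβ
    obtain ⟨w, hw, hprod⟩ := hdep (fun j => (β j : ℂ)) (by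
      intro j
      obtain ⟨i, hi⟩ := hβ j
      refine ⟨i, ?_⟩
      have h1 := Polynomial.aeval_algHom_apply T.val (β j) (minpoly (Kinf N) (a i))
      rw [hi, map_zero, hmin i] at h1
      exact h1)
    refine ⟨w, hw, ?_⟩
    apply T.val.injective
    rw [map_prod, map_one, ← hprod]
    exact Finset.prod_congr rfl fun j _ => map_zpow₀ T.val _ _)
  let F : IntermediateField (Kinf N) ℂ := K.map T.val
  let e : K ≃ₐ[Kinf N] F := K.equivMap T.val
  have : FiniteDimensional (Kinf N) F := Module.Finite.equiv e.toLinearEquiv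
  have hfr : finrank (Kinf N) F ≤ 3 ^ (r * r) := by
    rw [← e.toLinearEquiv.finrank_eq]
    exact hK1
  have hrad : ∀ i, ∃ m : ℕ, 0 < m ∧ α i ^ m ∈ F := by
    intro i
    obtain ⟨m, hm, hmem⟩ := hK2 i
    exact ⟨m, hm, ⟨a i ^ m, hmem, rfl⟩⟩
  have hmain := (all_radicals n (3 ^ (r * r)) p D hn (Nat.one_le_pow _ _ (by norm_num)) hp N
    hN hD F hfr α h0 hrad hind).2
  refine ⟨finrank_adjoin_le (Kinf N) (Set.finite_range α) (by rintro _ ⟨i, rfl⟩; exact halg i),
    le_trans ?_ hmain⟩
  have hle : Kinf N ≤ F.restrictScalars ℚ := by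
    intro x hx
    exact F.algebraMap_mem (⟨x, hx⟩ : Kinf N)
  have hmono : finrank F (adjoin F (Set.range α)) ≤
      finrank (Kinf N) (adjoin (Kinf N) (Set.range α)) :=
    finrank_adjoin_mono hle (Set.finite_range α) (by rintro _ ⟨i, rfl⟩; exact halg i)
  have hpos : (0 : ℝ) < finrank F (adjoin F (Set.range α)) := by
    have : FiniteDimensional F (adjoin F (Set.range α)) :=
      finiteDimensional_adjoin (by rintro _ ⟨i, rfl⟩; exact (halg i).isIntegral.tower_top)
    exact_mod_cast finrank_pos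
  have hlog : 0 ≤ Real.log p := Real.log_natCast_nonneg p
  apply div_le_div_of_nonneg_left (by positivity) hpos
  exact_mod_cast hmono

end Pool.Agent.helper69.SLH
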